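import Mathlib

open Complex Filter Topology

namespace Pool.Agent.Results.MP_84a0b9_an.SharpArgument

/-- The normalised semi-complete vector fields on the unit disc (Berkson-Porta form): `f` is
holomorphic, `f 0 = 0`, `f' 0 = 1` and `Re (f z / z) ≥ 0`. -/
def G0 : Set (ℂ → ℂ) := {f | DifferentiableOn ℂ f (Metric.ball 0 1) ∧ f 0 = 0 ∧ deriv f 0 = 1 ∧
    ∀ z : ℂ, ‖z‖ < 1 → 0 ≤ (f z / z).re}

/-- The class `𝔥_α`: `f ∈ G0` with `Re [α|z|² f z / z + (1-α)(1-|z|²) f' z] ≥ 0` on the disc. -/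
def Hcl (α : ℝ) : Set (ℂ → ℂ) := {f | f ∈ G0 ∧ ∀ z : ℂ, ‖z‖ < 1 →
    0 ≤ ((α * ‖z‖^2 : ℝ) * (f z / z) + ((1 - α) * (1 - ‖z‖^2) : ℝ) * deriv f z).re}

/-- `B(S) = (2/π) sup_{f ∈ S} sup_{|z| < 1} |Arg (f z / z)|` (at `z = 0` Lean's value of
`f z / z` is `0`, whose `Complex.arg` is `0`, the argument of the true value `f' 0 = 1`). -/
noncomputable def B (S : Set (ℂ → ℂ)) : ℝ :=
  (2 / Real.pi) * sSup {x : ℝ | ∃ f ∈ S, ∃ z : ℂ, ‖z‖ < 1 ∧ x = |arg (f z / z)|}

/-- The extremal functions. -/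
noncomputable def p (β l : ℝ) (z : ℂ) : ℂ := (1 - z) ^ (β : ℂ) + I * l * (1 - (1 - z)^2)

lemma sin_mul_ge {t φ : ℝ} (ht0 : 0 ≤ t) (ht1 : t ≤ 1) (h0 : 0 ≤ φ) (h1 : φ ≤ Real.pi) :
    t * Real.sin φ ≤ Real.sin (t * φ) := by
  have hc := strictConcaveOn_sin_Icc.concaveOn
  have h := hc.2 (x := φ) (y := 0) ⟨h0, h1⟩ ⟨le_rfl, Real.pi_pos.le⟩ ht0 (sub_nonneg.2 ht1)
    (by ring)
  simpa using h

lemma sin_sin_ge {t φ : ℝ} (ht0 : 0 ≤ t) (ht1 : t ≤ 1) (h1 : |φ| ≤ Real.pi / 2) :
    t * Real.sin φ ^ 2 ≤ Real.sin φ * Real.sin (t * φ) := by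
  obtain ⟨h2, h3⟩ := abs_le.1 h1
  have hpi := Real.pi_pos
  rcases le_total 0 φ with h | h
  · have h4 := sin_mul_ge ht0 ht1 h (by linarith)
    have h5 : 0 ≤ Real.sin φ := Real.sin_nonneg_of_nonneg_of_le_pi h (by linarith)
    nlinarith
  · have h4 := sin_mul_ge (φ := -φ) ht0 ht1 (by linarith) (by linarith)
    have h5 : 0 ≤ Real.sin (-φ) := Real.sin_nonneg_of_nonneg_of_le_pi (by linarith) (by linarith)
    rw [mul_neg, Real.sin_neg, Real.sin_neg] at h4
    rw [Real.sin_neg] at h5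
    nlinarith

/-- facts about `q = w^(β-1)`. -/
lemma q_facts {β : ℝ} (h0 : 0 < β) (h1 : β < 1) {w : ℂ} (hw : 0 < w.re) :
    Real.cos ((1 - β) * (Real.pi / 2)) * ‖w‖ ^ (β - 1) ≤ (w ^ ((β - 1 : ℝ) : ℂ)).re ∧
    (1 - β) * ‖w‖ ^ (β - 1) * w.im ^ 2 ≤ -(w.im * (w ^ ((β - 1 : ℝ) : ℂ)).im) * ‖w‖ := by
  have hw0 : w ≠ 0 := by rintro rfl; simp at hw
  have hs : 0 < ‖w‖ := norm_pos_iff.2 hw0
  have hφ : |arg w| < Real.pi / 2 := abs_arg_lt_pi_div_two_iff.2 (Or.inl hw)
  set φ := arg w with hφd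
  have hq : w ^ ((β - 1 : ℝ) : ℂ) =
      ((‖w‖ ^ (β - 1) : ℝ) : ℂ) * exp ((((β - 1) * φ : ℝ) : ℂ) * I) := by
    rw [Complex.cpow_def_of_ne_zero hw0, Complex.log]
    rw [show ((Real.log ‖w‖ : ℂ) + (arg w : ℂ) * I) * ((β - 1 : ℝ) : ℂ) =
      ((Real.log ‖w‖ * (β - 1) : ℝ) : ℂ) + (((β - 1) * φ : ℝ) : ℂ) * I by
        rw [← hφd]; push_cast; ring]
    rw [Complex.exp_add, ← Complex.ofReal_exp, Real.rpow_def_of_pos hs]
  have hre : (w ^ ((β - 1 : ℝ) : ℂ)).re = ‖w‖ ^ (β - 1) * Real.cos ((1 - β) * φ) := by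
    rw [hq, Complex.re_ofReal_mul, Complex.exp_ofReal_mul_I_re]
    rw [← Real.cos_neg]
    congr 2
    ring
  have him : (w ^ ((β - 1 : ℝ) : ℂ)).im = -(‖w‖ ^ (β - 1) * Real.sin ((1 - β) * φ)) := by
    rw [hq, Complex.im_ofReal_mul, Complex.exp_ofReal_mul_I_im]
    rw [show (β - 1) * φ = -((1 - β) * φ) by ring, Real.sin_neg]
    ring
  have hwim : w.im = ‖w‖ * Real.sin φ := by
    rw [hφd, Complex.sin_arg]
    field_simp
  have hτ : 0 < ‖w‖ ^ (β - 1) := Real.rpow_pos_of_pos hs _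
  constructor
  · rw [hre, mul_comm]
    apply mul_le_mul_of_nonneg_left _ hτ.le
    rw [← Real.cos_abs ((1 - β) * φ), abs_mul, abs_of_pos (by linarith : 0 < 1 - β)]
    apply Real.cos_le_cos_of_nonneg_of_le_pi
    · have := abs_nonneg φ
      nlinarith
    · have := Real.pi_pos
      nlinarith
    · apply mul_le_mul_of_nonneg_left hφ.le (by linarith)
  · rw [him, hwim]
    have h2 := sin_sin_ge (t := 1 - β) (by linarith) (by linarith) hφ.le
    have h3 : 0 ≤ ‖w‖ ^ (β - 1) * ‖w‖^2 := by positivity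
    have h4 := mul_le_mul_of_nonneg_left h2 h3
    nlinarith

lemma deriv_f {β l : ℝ} {z : ℂ} (hz : ‖z‖ < 1) :
    HasDerivAt (fun z => z * p β l z)
      (p β l z + z * (-(β * (1 - z) ^ ((β - 1 : ℝ) : ℂ)) + 2 * I * l * (1 - z))) z := by
  have hre : 0 < (1 - z).re := by
    have := (le_abs_self z.re).trans (Complex.abs_re_le_norm z)
    simp only [Complex.sub_re, Complex.one_re]
    linarith
  have h1 : HasDerivAt (fun z : ℂ => 1 - z) (-1) z := by
    simpa using (hasDerivAt_id z).const_sub 1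
  have h2 : HasDerivAt (fun z : ℂ => (1 - z) ^ (β : ℂ)) ((β : ℂ) * (1 - z) ^ ((β : ℂ) - 1) * (-1)) z :=
    h1.cpow_const (Or.inl hre)
  have h3 : HasDerivAt (fun z : ℂ => I * l * (1 - (1 - z)^2)) (I * l * (-(2 * (1 - z) * (-1)))) z := by
    have := ((h1.pow 2).const_sub 1).const_mul (I * (l:ℂ))
    simpa using this
  have h4 := (hasDerivAt_id z).mul (h2.add h3)
  unfold p
  refine h4.congr_deriv ?_
  push_cast
  simp only [id, Pi.add_apply]
  ring

/-- The main inequality. -/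
lemma main_ineq {β : ℝ} (h0 : 0 < β) (h1 : β < 1) {m l : ℝ}
    (hm0 : 0 < m) (hm1 : m ≤ 2 * (1 - β)) (hm2 : m ≤ Real.cos ((1 - β) * (Real.pi / 2)))
    (hl : l = β * m / 48) {z : ℂ} (hz : ‖z‖ < 1) :
    0 ≤ (p β l z).re ∧
    0 ≤ ((2 * β * ‖z‖^2 : ℝ) * p β l z + ((1 - ‖z‖^2 : ℝ) : ℂ) *
      (p β l z + z * (-(β * (1 - z) ^ ((β - 1 : ℝ) : ℂ)) + 2 * I * l * (1 - z)))).re := by
  obtain ⟨w, rfl⟩ : ∃ w, z = 1 - w := ⟨1 - z, by ring⟩
  have hD : ‖1 - w‖^2 = 1 - (2 * w.re - (w.re^2 + w.im^2)) := by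
    rw [← Complex.normSq_eq_norm_sq, Complex.normSq_apply]
    simp
    ring
  have hD1 : ‖1 - w‖^2 < 1 := pow_lt_one₀ (norm_nonneg _) hz (by norm_num)
  set D := 2 * w.re - (w.re^2 + w.im^2) with hDd
  have hDp : 0 < D := by linarith
  have hDl : D ≤ 1 := by have := sq_nonneg ‖1 - w‖; linarith
  have ha : 0 < w.re := by nlinarith [sq_nonneg w.re, sq_nonneg w.im]
  have hw0 : w ≠ 0 := by rintro rfl; simp at ha
  have hs : 0 < ‖w‖ := norm_pos_iff.2 hw0
  have hs2 : ‖w‖^2 = w.re^2 + w.im^2 := by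
    rw [← Complex.normSq_eq_norm_sq, Complex.normSq_apply]; ring
  have has : w.re ≤ ‖w‖ := (le_abs_self _).trans (Complex.abs_re_le_norm w)
  have hbs : |w.im| ≤ ‖w‖ := Complex.abs_im_le_norm w
  have hsle : ‖w‖ ≤ 2 := by nlinarith
  obtain ⟨q1, q2⟩ := q_facts h0 h1 ha
  set q := w ^ ((β - 1 : ℝ) : ℂ) with hq
  set τ := ‖w‖ ^ (β - 1) with hτ
  have hwq : w ^ (β : ℂ) = w * q := by
    rw [hq]
    nth_rewrite 2 [← Complex.cpow_one w]
    rw [← Complex.cpow_add _ _ hw0]
    congr 1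
    push_cast
    ring
  have hτ2 : 1/2 ≤ τ := by
    rw [hτ, show β - 1 = -(1 - β) by ring, Real.rpow_neg hs.le, one_div]
    apply inv_anti₀ (Real.rpow_pos_of_pos hs _)
    calc ‖w‖ ^ (1 - β) ≤ 2 ^ (1 - β) := Real.rpow_le_rpow hs.le hsle (by linarith)
      _ ≤ 2 ^ (1:ℝ) := Real.rpow_le_rpow_of_exponent_le (by norm_num) (by linarith)
      _ = 2 := Real.rpow_one 2
  have hτ0 : 0 < τ := by linarith
  have hlp : 0 < l := by rw [hl]; positivity
  set k := Real.cos ((1 - β) * (Real.pi / 2)) with hk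
  set a := w.re with had
  set b := w.im with hbd
  set c := q.re with hcd
  set d := q.im with hdd
  have hkp : 0 < k := lt_of_lt_of_le hm0 hm2
  have hcp : 0 < c := lt_of_lt_of_le (by positivity) q1
  have hbd0 : 0 ≤ -(b * d) := by
    have h3 : 0 ≤ (1 - β) * τ * b^2 := by
      have : 0 < 1 - β := by linarith
      positivity
    have h4 : 0 ≤ -(b * d) * ‖w‖ := h3.trans q2
    exact nonneg_of_mul_nonneg_left h4 hs
  have hb2 : |b|^2 = b^2 := sq_abs b
  have hbn := abs_nonneg b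
  have hlm : 48 * l = β * m := by rw [hl]; ring
  have hp : (p β l (1 - w)) = w * q + I * l * (1 - w^2) := by
    unfold p
    rw [sub_sub_cancel, hwq]
  have hle1 : -(a * |b|) ≤ a * b ∧ a * b ≤ a * |b| := by
    constructor
    · nlinarith [neg_abs_le b]
    · nlinarith [le_abs_self b]
  constructor
  · rw [hp]
    have e1 : (w * q + I * l * (1 - w^2)).re = a * c - b * d + l * (2 * a * b) := by
      simp [pow_two]
      ring
    rw [e1]
    have h5 : k / 2 * a ≤ a * c := by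
      have h51 : k * (1/2) ≤ k * τ := mul_le_mul_of_nonneg_left hτ2 hkp.le
      have h52 : k / 2 ≤ c := by linarith
      have h53 := mul_le_mul_of_nonneg_left h52 ha.le
      linarith
    have h6 : l ≤ k / 48 := by
      have : β * m ≤ k := by nlinarith
      linarith
    have h7 : |b| ≤ 2 := hbs.trans hsle
    have h8 : l * (a * |b|) ≤ (k / 48) * (a * 2) := by
      apply mul_le_mul h6 _ (by positivity) (by positivity)
      exact mul_le_mul_of_nonneg_left h7 ha.le
    nlinarith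
  · rw [hp, sub_sub_cancel, hD]
    have e1 : (((2 * β * (1 - D) : ℝ) : ℂ) * (w * q + I * l * (1 - w^2)) + ((1 - (1 - D) : ℝ) : ℂ) *
        (w * q + I * l * (1 - w^2) + (1 - w) * (-(β * q) + 2 * I * l * w))).re =
        (-2 * β * (b * d) + β * (a^2 + b^2) * c + (1 - β) * D * (a * c - b * d)) +
          l * (b * (4 * β * (1 - D) * a + D * (6 * a - 2))) := by
      simp only [Complex.add_re, Complex.mul_re, Complex.mul_im, Complex.I_re,
        Complex.I_im, Complex.ofReal_re, Complex.ofReal_im, Complex.sub_re, Complex.sub_im,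
        Complex.one_re, Complex.one_im, Complex.neg_re, Complex.neg_im, Complex.add_im, pow_two,
        Complex.re_ofNat, Complex.im_ofNat]
      rw [← had, ← hbd, ← hcd, ← hdd, hDd]
      ring
    rw [e1]
    have e2 : |b * (4 * β * (1 - D) * a + D * (6 * a - 2))| ≤ 24 * (‖w‖ * |b|) := by
      rw [abs_mul]
      have h5 : |4 * β * (1 - D) * a + D * (6 * a - 2)| ≤ 24 * ‖w‖ := by
        have hD2 : D ≤ 2 * a := by
          have := sq_nonneg a
          have := sq_nonneg b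
          linarith
        have ha2 : a ≤ 2 := has.trans hsle
        have h6 : |4 * β * (1 - D) * a| ≤ 4 * a := by
          rw [abs_of_nonneg (by have : 0 ≤ 1 - D := by linarith
                                positivity)]
          have : β * (1 - D) ≤ 1 := by nlinarith
          nlinarith
        have h7 : |D * (6 * a - 2)| ≤ 20 * a := by
          rw [abs_mul, abs_of_pos hDp]
          have h8 : |6 * a - 2| ≤ 10 := by
            rw [abs_le]; constructor <;> linarith
          calc D * |6 * a - 2| ≤ (2 * a) * 10 := mul_le_mul hD2 h8 (abs_nonneg _) (by linarith)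
            _ = 20 * a := by ring
        have h9 := abs_add_le (4 * β * (1 - D) * a) (D * (6 * a - 2))
        linarith
      nlinarith
    have e3 : β * τ * m * (|b| * ‖w‖) ≤ -2 * β * (b * d) + β * (a^2 + b^2) * c := by
      rw [← hs2]
      have h5 : β * τ * m * (b^2 + ‖w‖^3) ≤ (-2 * β * (b * d) + β * ‖w‖^2 * c) * ‖w‖ := by
        have h6 : β * (2 * ((1 - β) * τ * b^2)) ≤ β * (2 * (-(b * d) * ‖w‖)) := by
          apply mul_le_mul_of_nonneg_left _ h0.le
          linarith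
        have h7 : β * ‖w‖^3 * (m * τ) ≤ β * ‖w‖^3 * c := by
          apply mul_le_mul_of_nonneg_left _ (by positivity)
          refine le_trans ?_ q1
          exact mul_le_mul_of_nonneg_right hm2 hτ0.le
        have h8 : β * τ * b^2 * m ≤ β * τ * b^2 * (2 * (1 - β)) :=
          mul_le_mul_of_nonneg_left hm1 (by positivity)
        nlinarith
      have h6 : |b| * ‖w‖^2 ≤ b^2 + ‖w‖^3 := by
        have h7 : ‖w‖^4 / 4 ≤ ‖w‖^3 := by
          have : 0 < ‖w‖^3 := by positivity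
          nlinarith
        have h8 : |b| * ‖w‖^2 ≤ b^2 + ‖w‖^4/4 := by
          nlinarith [sq_nonneg (|b| - ‖w‖^2/2)]
        linarith
      have h7 : (β * τ * m * (|b| * ‖w‖)) * ‖w‖ ≤ (-2 * β * (b * d) + β * ‖w‖^2 * c) * ‖w‖ := by
        refine le_trans ?_ h5
        have : 0 < β * τ * m := by positivity
        nlinarith
      exact le_of_mul_le_mul_right h7 hs
    have e4 : 0 ≤ (1 - β) * D * (a * c - b * d) := by
      apply mul_nonneg
      · apply mul_nonneg (by linarith) hDp.le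
      · have := mul_pos ha hcp
        linarith
    have e5 : l * (24 * (‖w‖ * |b|)) ≤ β * τ * m * (|b| * ‖w‖) := by
      have h5 : 24 * l ≤ β * m * τ := by
        have : β * m * (1/2) ≤ β * m * τ := mul_le_mul_of_nonneg_left hτ2 (by positivity)
        linarith
      have h6 : 0 ≤ ‖w‖ * |b| := by positivity
      have h7 := mul_le_mul_of_nonneg_right h5 h6
      linarith
    have e6 := (abs_le.1 e2).1
    have e7 : -(l * (24 * (‖w‖ * |b|))) ≤ l * (b * (4 * β * (1 - D) * a + D * (6 * a - 2))) := by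
      have h5 := mul_le_mul_of_nonneg_left e6 hlp.le
      linarith
    linarith

/-- **The sharp argument bound of the classes `𝔥_α`, `0 < α < 2/3`, is trivial: `B(𝔥_α) = 1`.** -/
theorem result (α : ℝ) (h0 : 0 < α) (h1 : α < 2/3) : B (Hcl α) = 1 := by
  set β := α / (2 * (1 - α)) with hβ
  have hα1 : 0 < 1 - α := by linarith
  have hβ0 : 0 < β := by positivity
  have hβ1 : β < 1 := by
    rw [hβ, div_lt_one (by linarith)]
    linarith
  have hk : 0 < Real.cos ((1 - β) * (Real.pi / 2)) := by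
    apply Real.cos_pos_of_mem_Ioo
    have := Real.pi_pos
    constructor <;> nlinarith
  set m := min (2 * (1 - β)) (Real.cos ((1 - β) * (Real.pi / 2))) with hm
  have hm0 : 0 < m := lt_min (by linarith) hk
  set l := β * m / 48 with hl
  have hlp : 0 < l := by positivity
  set f : ℂ → ℂ := fun z => z * p β l z with hf
  have hp0 : p β l 0 = 1 := by unfold p; simp
  have hfz : ∀ z : ℂ, z ≠ 0 → f z / z = p β l z := by
    intro z hz
    simp only [hf]
    field_simp
  have hmem : f ∈ Hcl α := by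
    refine ⟨⟨?_, ?_, ?_, ?_⟩, ?_⟩
    · intro z hz
      exact (deriv_f (by simpa using hz)).differentiableAt.differentiableWithinAt
    · simp [hf]
    · rw [(deriv_f (β := β) (l := l) (z := 0) (by simp)).deriv, hp0]
      simp
    · intro z hz
      by_cases h : z = 0
      · simp [h]
      · rw [hfz z h]
        exact (main_ineq hβ0 hβ1 hm0 (min_le_left _ _) (min_le_right _ _) hl hz).1
    · intro z hz
      by_cases h : z = 0
      · subst h
        rw [(deriv_f (β := β) (l := l) (z := 0) (by simp)).deriv, hp0]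
        simp
        linarith
      · rw [hfz z h, (deriv_f hz).deriv]
        have h3 := (main_ineq hβ0 hβ1 hm0 (min_le_left _ _) (min_le_right _ _) hl hz).2
        have h4 : (((α * ‖z‖^2 : ℝ) : ℂ) * p β l z + (((1 - α) * (1 - ‖z‖^2) : ℝ) : ℂ) *
            (p β l z + z * (-(β * (1 - z) ^ ((β - 1 : ℝ) : ℂ)) + 2 * I * l * (1 - z)))) =
            ((1 - α : ℝ) : ℂ) * (((2 * β * ‖z‖^2 : ℝ) : ℂ) * p β l z + ((1 - ‖z‖^2 : ℝ) : ℂ) *
            (p β l z + z * (-(β * (1 - z) ^ ((β - 1 : ℝ) : ℂ)) + 2 * I * l * (1 - z)))) := by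
          have h5 : (α * ‖z‖^2 : ℝ) = (1 - α) * (2 * β * ‖z‖^2) := by
            rw [hβ]
            field_simp
          rw [h5]
          push_cast
          ring
        rw [h4, Complex.re_ofReal_mul]
        exact mul_nonneg hα1.le h3
  have hpi := Real.pi_pos
  have hsup : sSup {x : ℝ | ∃ f ∈ Hcl α, ∃ z : ℂ, ‖z‖ < 1 ∧ x = |arg (f z / z)|} = Real.pi / 2 := by
    apply csSup_eq_of_forall_le_of_forall_lt_exists_gt
    · exact ⟨_, f, hmem, 0, by simp, rfl⟩
    · rintro x ⟨g, hg, z, hz, rfl⟩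
      exact Complex.abs_arg_le_pi_div_two_iff.2 (hg.1.2.2.2 z hz)
    · intro y hy
      have h2 : Tendsto (fun r : ℝ => p β l r) (𝓝[<] 1) (𝓝 (I * l)) := by
        have e1 : Tendsto (fun r : ℝ => ((1 - r : ℝ) : ℂ) ^ (β : ℂ)) (𝓝[<] 1) (𝓝 0) := by
          have e2 : Tendsto (fun r : ℝ => ((1 - r) ^ β : ℝ)) (𝓝[<] 1) (𝓝 0) := by
            have e3 : ContinuousAt (fun r : ℝ => ((1 - r) ^ β : ℝ)) 1 := by
              apply ContinuousAt.rpow_const (by fun_prop) (Or.inr hβ0.le)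
            have e4 := e3.tendsto
            simp only [sub_self] at e4
            rw [Real.zero_rpow hβ0.ne'] at e4
            exact e4.mono_left nhdsWithin_le_nhds
          have e5 := (Complex.continuous_ofReal.tendsto 0).comp e2
          rw [Complex.ofReal_zero] at e5
          apply e5.congr'
          filter_upwards [self_mem_nhdsWithin] with r hr
          simp only [Function.comp_apply]
          rw [Complex.ofReal_cpow (by have : r < 1 := hr; linarith)]
        have e6 : Tendsto (fun r : ℝ => I * (l:ℂ) * (1 - (1 - (r:ℂ))^2)) (𝓝[<] 1) (𝓝 (I * l)) := by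
          have e7 : ContinuousAt (fun r : ℝ => I * (l:ℂ) * (1 - (1 - (r:ℂ))^2)) 1 := by fun_prop
          have e8 := e7.tendsto
          simp only [Complex.ofReal_one, sub_self] at e8
          norm_num at e8
          exact e8.mono_left nhdsWithin_le_nhds
        have e9 := e1.add e6
        rw [zero_add] at e9
        apply e9.congr
        intro r
        unfold p
        push_cast
        rfl
      have h3 : ContinuousAt arg (I * l) := by
        apply Complex.continuousAt_arg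
        right
        simp [hlp.ne']
      have h4 : arg (I * l) = Real.pi / 2 := by
        rw [Complex.arg_eq_pi_div_two_iff]
        simp [hlp]
      have h5 := h3.tendsto.comp h2
      rw [h4] at h5
      have e1 : ∀ᶠ r : ℝ in 𝓝[<] (1:ℝ), y < arg (p β l (r:ℂ)) := h5.eventually_const_lt hy
      have e2 : ∀ᶠ r : ℝ in 𝓝[<] (1:ℝ), r < 1 := self_mem_nhdsWithin
      have e3 : ∀ᶠ r : ℝ in 𝓝[<] (1:ℝ), 0 < r := nhdsWithin_le_nhds (Ioi_mem_nhds one_pos)
      obtain ⟨r, k1, k2, k3⟩ := (e1.and (e2.and e3)).exists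
      refine ⟨_, ⟨f, hmem, r, ?_, rfl⟩, ?_⟩
      · rw [Complex.norm_real, Real.norm_eq_abs, abs_of_pos k3]
        exact k2
      · rw [hfz r (by exact_mod_cast k3.ne')]
        exact lt_of_lt_of_le k1 (le_abs_self _)
  unfold B
  rw [hsup]
  field_simp

end Pool.Agent.Results.MP_84a0b9_an.SharpArgument
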